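import Mathlib

/-!
# MP_859019 on [3,4]: variational bound and trial vectors

`K (X) = M X + σ X C` on `Matrix (ι × κ) κ ℂ`.
-/

open scoped BigOperators ComplexOrder Kronecker MatrixOrder
open Matrix

namespace Pool.Agent.G34

variable {n ι κ : Type*} [Fintype n] [DecidableEq n] [Fintype ι] [DecidableEq ι] [Fintype κ]
  [DecidableEq κ]

/-- variational principle for one vector -/
theorem var_one {N : Matrix n n ℂ} (hN : N.PosDef) (b x : n → ℂ) :
    2 * (star b ⬝ᵥ x).re - (star x ⬝ᵥ (N *ᵥ x)).re ≤ (star b ⬝ᵥ (N⁻¹ *ᵥ b)).re := by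
  have hu : IsUnit N.det := (Matrix.isUnit_iff_isUnit_det N).1 hN.isUnit
  have h0 := hN.posSemidef.dotProduct_mulVec_nonneg (x - N⁻¹ *ᵥ b)
  have h1 : N *ᵥ (x - N⁻¹ *ᵥ b) = N *ᵥ x - b := by
    rw [Matrix.mulVec_sub, Matrix.mulVec_mulVec, Matrix.mul_nonsing_inv _ hu, Matrix.one_mulVec]
  have h2 : star (N⁻¹ *ᵥ b) ⬝ᵥ (N *ᵥ x) = star b ⬝ᵥ x := by
    rw [Matrix.star_mulVec, Matrix.conjTranspose_nonsing_inv, hN.isHermitian.eq,
      ← Matrix.dotProduct_mulVec, Matrix.mulVec_mulVec, Matrix.nonsing_inv_mul _ hu,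
      Matrix.one_mulVec]
  have h3 : star (N⁻¹ *ᵥ b) ⬝ᵥ b = star b ⬝ᵥ (N⁻¹ *ᵥ b) := by
    rw [Matrix.star_mulVec, Matrix.conjTranspose_nonsing_inv, hN.isHermitian.eq,
      ← Matrix.dotProduct_mulVec]
  have h4 : (star x ⬝ᵥ b).re = (star b ⬝ᵥ x).re := by
    rw [← Complex.conj_re, ← Complex.star_def, Matrix.star_dotProduct]
    simp
  rw [h1, star_sub, sub_dotProduct, dotProduct_sub, dotProduct_sub, h2,
    h3] at h0
  have h5 := (Complex.le_def.1 h0).1
  simp only [Complex.zero_re, Complex.sub_re] at h5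
  rw [h4] at h5
  linarith

/-- `v ⊗ Y` as a matrix with rows in `ι × κ` -/
def kc (v : ι → ℂ) (Y : Matrix κ κ ℂ) : Matrix (ι × κ) κ ℂ :=
  Matrix.of fun p c => v p.1 * Y p.2 c

omit [Fintype ι] [DecidableEq ι] [Fintype κ] [DecidableEq κ] in
theorem kc_apply (v : ι → ℂ) (Y : Matrix κ κ ℂ) (p : ι × κ) (c : κ) :
    kc v Y p c = v p.1 * Y p.2 c := rfl

omit [DecidableEq ι] [DecidableEq κ] in
theorem kron_mul_kc (A : Matrix ι ι ℂ) (C : Matrix κ κ ℂ) (v : ι → ℂ) (Y : Matrix κ κ ℂ) :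
    (A ⊗ₖ C) * kc v Y = kc (A *ᵥ v) (C * Y) := by
  ext p c
  simp only [Matrix.mul_apply, kc_apply, Matrix.kroneckerMap_apply, Matrix.mulVec, dotProduct,
    Fintype.sum_prod_type]
  rw [Finset.sum_mul_sum]
  refine Finset.sum_congr rfl fun i _ => Finset.sum_congr rfl fun k _ => ?_
  ring

omit [Fintype ι] [DecidableEq ι] [DecidableEq κ] in
theorem kc_mul (C : Matrix κ κ ℂ) (v : ι → ℂ) (Y : Matrix κ κ ℂ) :
    kc v Y * C = kc v (Y * C) := by
  ext p c
  simp only [Matrix.mul_apply, kc_apply, Finset.mul_sum]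
  refine Finset.sum_congr rfl fun i _ => ?_
  ring

omit [DecidableEq ι] [DecidableEq κ] in
theorem trace_kc (v w : ι → ℂ) (Y Z : Matrix κ κ ℂ) :
    ((kc v Y)ᴴ * kc w Z).trace = (star v ⬝ᵥ w) * (Yᴴ * Z).trace := by
  simp only [Matrix.trace, Matrix.diag, Matrix.mul_apply, kc_apply, Matrix.conjTranspose_apply,
    dotProduct, Pi.star_apply, Fintype.sum_prod_type, star_mul']
  rw [Finset.sum_comm]
  conv_rhs => rw [Finset.sum_mul]
  refine Finset.sum_congr rfl fun i _ => ?_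
  rw [Finset.mul_sum]
  refine Finset.sum_congr rfl fun k _ => ?_
  rw [Finset.mul_sum]
  refine Finset.sum_congr rfl fun l _ => ?_
  ring

omit [DecidableEq ι] [DecidableEq κ] in
theorem trace_kc' (v w : ι → ℂ) (Y Z : Matrix κ κ ℂ) :
    (kc w Z * (kc v Y)ᴴ).trace = (star v ⬝ᵥ w) * (Z * Yᴴ).trace := by
  rw [Matrix.trace_mul_comm, trace_kc, Matrix.trace_mul_comm]

omit [DecidableEq n] in
/-- trace of `Yᴴ Z` as a sum over columns -/
theorem trace_cols {m : Type*} [Fintype m] (Y Z : Matrix n m ℂ) :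
    (Yᴴ * Z).trace = ∑ k, star (fun p => Y p k) ⬝ᵥ (fun p => Z p k) := by
  simp only [Matrix.trace, Matrix.diag, Matrix.mul_apply, Matrix.conjTranspose_apply, dotProduct,
    Pi.star_apply]

/-- the variational bound, all columns together -/
theorem var_cols {M : Matrix (ι × κ) (ι × κ) ℂ} (hM : M.PosDef) {σ : ℝ} (hσ : 0 ≤ σ)
    {U : Matrix κ κ ℂ} (hU' : U * star U = 1) {f g : κ → ℝ}
    (hg : ∀ k, 0 ≤ g k) (v : ι → ℂ) (X : Matrix (ι × κ) κ ℂ) :
    2 * ((kc v (U * diagonal (fun k => (f k : ℂ)) * star U))ᴴ * X).trace.re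
      - (Xᴴ * (M * X)).trace.re
      - σ * (X * (U * diagonal (fun k => (g k : ℂ)) * star U) * Xᴴ).trace.re ≤
    ∑ k, f k ^ 2 * (star (fun p : ι × κ => v p.1 * U p.2 k) ⬝ᵥ
      ((M + ((σ * g k : ℝ) : ℂ) • (1 : Matrix (ι × κ) (ι × κ) ℂ))⁻¹ *ᵥ
        (fun p : ι × κ => v p.1 * U p.2 k))).re := by
  classical
  set w : κ → ι × κ → ℂ := fun k p => v p.1 * U p.2 k with hw
  set x : κ → ι × κ → ℂ := fun k p => (X * U) p k with hx
  have hUt : Uᴴ = star U := rfl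
  -- first trace
  have h1 : ((kc v (U * diagonal (fun k => (f k : ℂ)) * star U))ᴴ * X).trace
      = ∑ k, (f k : ℂ) * (star (w k) ⬝ᵥ x k) := by
    have e1 : kc v (U * diagonal (fun k => (f k : ℂ)) * star U)
        = (kc v (U * diagonal (fun k => (f k : ℂ)))) * star U := by
      rw [kc_mul]
    rw [e1, Matrix.conjTranspose_mul, ← hUt, Matrix.conjTranspose_conjTranspose, Matrix.mul_assoc,
      Matrix.trace_mul_comm, Matrix.mul_assoc, trace_cols]
    refine Finset.sum_congr rfl fun k _ => ?_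
    simp only [dotProduct, Finset.mul_sum, Pi.star_apply, hw, hx, kc_apply]
    refine Finset.sum_congr rfl fun p _ => ?_
    rw [Matrix.mul_diagonal]
    simp only [star_mul', Complex.star_def, Complex.conj_ofReal]
    ring
  -- second trace
  have h2 : (Xᴴ * (M * X)).trace = ∑ k, star (x k) ⬝ᵥ (M *ᵥ x k) := by
    have e1 : (Xᴴ * (M * X)).trace = ((X * U)ᴴ * (M * (X * U))).trace := by
      rw [Matrix.conjTranspose_mul, hUt]
      have h9 : star U * Xᴴ * (M * (X * U)) = star U * ((Xᴴ * (M * X)) * U) := by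
        simp only [Matrix.mul_assoc]
      rw [h9, Matrix.trace_mul_comm (star U), Matrix.mul_assoc _ U, hU', Matrix.mul_one]
    rw [e1, trace_cols]
    refine Finset.sum_congr rfl fun k _ => ?_
    simp only [dotProduct, Pi.star_apply, Matrix.mulVec, hx]
    refine Finset.sum_congr rfl fun p _ => ?_
    rw [Matrix.mul_apply (M := M)]
  -- third trace
  have h3 : (X * (U * diagonal (fun k => (g k : ℂ)) * star U) * Xᴴ).trace
      = ∑ k, (g k : ℂ) * (star (x k) ⬝ᵥ x k) := by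
    have e1 : X * (U * diagonal (fun k => (g k : ℂ)) * star U) * Xᴴ
        = ((X * U) * diagonal (fun k => (g k : ℂ))) * (X * U)ᴴ := by
      rw [Matrix.conjTranspose_mul, hUt]
      simp only [Matrix.mul_assoc]
    rw [e1, Matrix.trace_mul_comm, trace_cols]
    refine Finset.sum_congr rfl fun k _ => ?_
    simp only [dotProduct, Finset.mul_sum, Pi.star_apply, hx]
    refine Finset.sum_congr rfl fun p _ => ?_
    rw [Matrix.mul_diagonal]
    ring
  rw [h1, h2, h3]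
  simp only [Complex.re_sum, Complex.re_ofReal_mul]
  rw [Finset.mul_sum, Finset.mul_sum, ← Finset.sum_sub_distrib, ← Finset.sum_sub_distrib]
  refine Finset.sum_le_sum fun k _ => ?_
  have hN : (M + ((σ * g k : ℝ) : ℂ) • (1 : Matrix (ι × κ) (ι × κ) ℂ)).PosDef := by
    refine hM.add_posSemidef ?_
    refine Matrix.PosSemidef.smul Matrix.PosSemidef.one ?_
    exact_mod_cast mul_nonneg hσ (hg k)
  have h4 := var_one hN (fun p => (f k : ℂ) * w k p) (x k)
  have e1 : star (fun p => (f k : ℂ) * w k p) = (f k : ℂ) • star (w k) := by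
    ext p
    simp
  have e2 : (fun p => (f k : ℂ) * w k p) = (f k : ℂ) • w k := by
    ext p
    simp
  rw [e1, e2, smul_dotProduct, Matrix.mulVec_smul, smul_dotProduct, dotProduct_smul,
    Matrix.add_mulVec, Matrix.smul_mulVec, Matrix.one_mulVec, dotProduct_add, dotProduct_smul] at h4
  simp only [smul_eq_mul, Complex.add_re, Complex.re_ofReal_mul] at h4
  calc _ = 2 * (f k * (star (w k) ⬝ᵥ x k).re) -
      ((star (x k) ⬝ᵥ M *ᵥ x k).re + σ * g k * (star (x k) ⬝ᵥ x k).re) := by ring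
    _ ≤ _ := h4
    _ = _ := by ring

/-- trial matrix `∑_j τ_j (S⁻*e_j) ⊗ Y_j` -/
noncomputable def trialX (S : Matrix ι ι ℂ) (v : ι → ℂ) (Y : ι → Matrix κ κ ℂ) :
    Matrix (ι × κ) κ ℂ :=
  ∑ j, kc (fun i => (S⁻¹ *ᵥ v) j * (S⁻¹)ᴴ i j) (Y j)

omit [Fintype κ] [DecidableEq κ] in
theorem frame_dot (S : Matrix ι ι ℂ) (v : ι → ℂ) (j : ι) :
    star v ⬝ᵥ (fun i => (S⁻¹ *ᵥ v) j * (S⁻¹)ᴴ i j) = ((Complex.normSq ((S⁻¹ *ᵥ v) j) : ℝ) : ℂ) := by
  have h1 : star v ⬝ᵥ (fun i => (S⁻¹ *ᵥ v) j * (S⁻¹)ᴴ i j)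
      = (S⁻¹ *ᵥ v) j * star ((S⁻¹ *ᵥ v) j) := by
    simp only [dotProduct, Pi.star_apply, Matrix.mulVec, star_sum, star_mul',
      Matrix.conjTranspose_apply]
    rw [Finset.mul_sum]
    refine Finset.sum_congr rfl fun i _ => ?_
    ring
  rw [h1, Complex.star_def, Complex.mul_conj]

omit [DecidableEq ι] in
theorem form_cols (N R : Matrix ι ι ℂ) (t : ι → ℂ) (i j : ι) :
    star (fun l => t i * R l i) ⬝ᵥ (N *ᵥ (fun l => t j * R l j))
      = star (t i) * t j * (Rᴴ * (N * R)) i j := by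
  have h1 : N *ᵥ (fun l => t j * R l j) = fun l => t j * (N * R) l j := by
    ext l
    rw [Matrix.mul_apply, Finset.mul_sum]
    simp only [Matrix.mulVec, dotProduct]
    refine Finset.sum_congr rfl fun k _ => ?_
    ring
  rw [h1, Matrix.mul_apply, Finset.mul_sum]
  simp only [dotProduct, Pi.star_apply, star_mul', Matrix.conjTranspose_apply]
  refine Finset.sum_congr rfl fun k _ => ?_
  ring

/-- `⟨a_i, (S D S*) a_j⟩` for the frame vectors -/
theorem frame_form {S : Matrix ι ι ℂ} (hS : IsUnit S.det) (d : ι → ℂ) (v : ι → ℂ) (i j : ι) :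
    star (fun l => (S⁻¹ *ᵥ v) i * (S⁻¹)ᴴ l i) ⬝ᵥ
      ((S * diagonal d * Sᴴ) *ᵥ (fun l => (S⁻¹ *ᵥ v) j * (S⁻¹)ᴴ l j))
      = if i = j then ((Complex.normSq ((S⁻¹ *ᵥ v) j) : ℝ) : ℂ) * d j else 0 := by
  rw [form_cols (S * diagonal d * Sᴴ) (S⁻¹)ᴴ (S⁻¹ *ᵥ v) i j, Matrix.conjTranspose_conjTranspose]
  have h2 : S⁻¹ * (S * diagonal d * Sᴴ * (S⁻¹)ᴴ) = diagonal d := by
    have h3 : Sᴴ * (S⁻¹)ᴴ = 1 := by
      rw [← Matrix.conjTranspose_mul, Matrix.nonsing_inv_mul _ hS, Matrix.conjTranspose_one]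
    rw [Matrix.mul_assoc, h3, Matrix.mul_one,
      ← Matrix.mul_assoc, Matrix.nonsing_inv_mul _ hS, Matrix.one_mul]
  rw [h2, Matrix.diagonal_apply]
  split_ifs with h
  · subst h
    rw [Complex.star_def, Complex.normSq_eq_conj_mul_self]
  · rw [mul_zero]

omit [DecidableEq κ] in
/-- value of the quadratic expression at the trial matrix -/
theorem trial_eval {S A B : Matrix ι ι ℂ} (hS : IsUnit S.det) {σ : ℝ} {β : ι → ℝ}
    (hA : A + (σ : ℂ) • (1 : Matrix ι ι ℂ) = S * Sᴴ)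
    (hB : B = S * diagonal (fun j => (β j : ℂ)) * Sᴴ) (v : ι → ℂ)
    {C D φ : Matrix κ κ ℂ} (hφ : φ.IsHermitian) {Y : ι → Matrix κ κ ℂ}
    (hY : ∀ j, (Y j).IsHermitian)
    (hiso : ∀ i j, (C * (Y i * Y j)).trace = (C * (Y j * Y i)).trace) :
    2 * ((kc v φ)ᴴ * trialX S v Y).trace.re
      - ((trialX S v Y)ᴴ * ((A ⊗ₖ C + B ⊗ₖ D) * trialX S v Y)).trace.re
      - σ * (trialX S v Y * C * (trialX S v Y)ᴴ).trace.re =
    ∑ j, Complex.normSq ((S⁻¹ *ᵥ v) j) *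
      (2 * (φ * Y j).trace.re - (Y j * ((C + (β j : ℂ) • D) * Y j)).trace.re) := by
  classical
  set a : ι → ι → ℂ := fun j i => (S⁻¹ *ᵥ v) j * (S⁻¹)ᴴ i j with ha
  have hX : trialX S v Y = ∑ j, kc (a j) (Y j) := rfl
  have h1 : ((kc v φ)ᴴ * trialX S v Y).trace
      = ∑ j, ((Complex.normSq ((S⁻¹ *ᵥ v) j) : ℝ) : ℂ) * (φ * Y j).trace := by
    rw [hX, Matrix.mul_sum, Matrix.trace_sum]
    refine Finset.sum_congr rfl fun j _ => ?_
    rw [trace_kc, hφ.eq, ha, frame_dot]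
  have h2 : ((trialX S v Y)ᴴ * ((A ⊗ₖ C + B ⊗ₖ D) * trialX S v Y)).trace
      = ∑ i, ∑ j, ((star (a i) ⬝ᵥ (A *ᵥ a j)) * (Y i * (C * Y j)).trace
        + (star (a i) ⬝ᵥ (B *ᵥ a j)) * (Y i * (D * Y j)).trace) := by
    rw [hX, Matrix.mul_sum, Matrix.conjTranspose_sum, Matrix.mul_sum, Matrix.trace_sum,
      Finset.sum_comm]
    refine Finset.sum_congr rfl fun j _ => ?_
    rw [Matrix.sum_mul, Matrix.trace_sum]
    refine Finset.sum_congr rfl fun i _ => ?_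
    rw [Matrix.add_mul, kron_mul_kc, kron_mul_kc, Matrix.mul_add, Matrix.trace_add, trace_kc,
      trace_kc, (hY i).eq]
  have h3 : (trialX S v Y * C * (trialX S v Y)ᴴ).trace
      = ∑ i, ∑ j, (star (a i) ⬝ᵥ a j) * (Y i * (C * Y j)).trace := by
    rw [hX, Matrix.sum_mul, Matrix.sum_mul, Matrix.trace_sum, Finset.sum_comm]
    refine Finset.sum_congr rfl fun j _ => ?_
    rw [Matrix.conjTranspose_sum, Matrix.mul_sum, Matrix.trace_sum]
    refine Finset.sum_congr rfl fun i _ => ?_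
    rw [kc_mul, trace_kc', (hY i).eq]
    congr 1
    have e1 : (Y j * C * Y i).trace = (C * (Y i * Y j)).trace := by
      rw [Matrix.mul_assoc, Matrix.trace_mul_comm, Matrix.mul_assoc]
    have e2 : (Y i * (C * Y j)).trace = (C * (Y j * Y i)).trace := by
      rw [Matrix.trace_mul_comm, Matrix.mul_assoc]
    rw [e1, e2, hiso]
  have h4 : ∀ i j, (star (a i) ⬝ᵥ (A *ᵥ a j)) + (σ : ℂ) * (star (a i) ⬝ᵥ a j)
      = if i = j then ((Complex.normSq ((S⁻¹ *ᵥ v) j) : ℝ) : ℂ) else 0 := by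
    intro i j
    have h5 := frame_form hS (fun _ => (1 : ℂ)) v i j
    have h6 : S * diagonal (fun _ => (1 : ℂ)) * Sᴴ = A + (σ : ℂ) • (1 : Matrix ι ι ℂ) := by
      rw [hA, Matrix.diagonal_one, Matrix.mul_one]
    rw [h6, Matrix.add_mulVec, Matrix.smul_mulVec, Matrix.one_mulVec, dotProduct_add,
      dotProduct_smul] at h5
    simp only [smul_eq_mul, mul_one] at h5
    exact h5
  have h7 : ∀ i j, (star (a i) ⬝ᵥ (B *ᵥ a j))
      = if i = j then ((Complex.normSq ((S⁻¹ *ᵥ v) j) : ℝ) : ℂ) * (β j : ℂ) else 0 := by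
    intro i j
    rw [hB]
    exact frame_form hS (fun j => (β j : ℂ)) v i j
  have h8 : ((trialX S v Y)ᴴ * ((A ⊗ₖ C + B ⊗ₖ D) * trialX S v Y)).trace
      + (σ : ℂ) * (trialX S v Y * C * (trialX S v Y)ᴴ).trace
      = ∑ j, ((Complex.normSq ((S⁻¹ *ᵥ v) j) : ℝ) : ℂ) *
        ((Y j * ((C + (β j : ℂ) • D) * Y j)).trace) := by
    rw [h2, h3, Finset.mul_sum, ← Finset.sum_add_distrib]
    refine Finset.sum_congr rfl fun i _ => ?_
    rw [Finset.mul_sum, ← Finset.sum_add_distrib]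
    have e1 : ∀ j, (star (a i) ⬝ᵥ (A *ᵥ a j)) * (Y i * (C * Y j)).trace
        + (star (a i) ⬝ᵥ (B *ᵥ a j)) * (Y i * (D * Y j)).trace
        + (σ : ℂ) * ((star (a i) ⬝ᵥ a j) * (Y i * (C * Y j)).trace)
        = if i = j then ((Complex.normSq ((S⁻¹ *ᵥ v) j) : ℝ) : ℂ) *
          ((Y i * (C * Y j)).trace + (β j : ℂ) * (Y i * (D * Y j)).trace) else 0 := by
      intro j
      have : (star (a i) ⬝ᵥ (A *ᵥ a j)) * (Y i * (C * Y j)).trace
        + (star (a i) ⬝ᵥ (B *ᵥ a j)) * (Y i * (D * Y j)).trace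
        + (σ : ℂ) * ((star (a i) ⬝ᵥ a j) * (Y i * (C * Y j)).trace)
        = ((star (a i) ⬝ᵥ (A *ᵥ a j)) + (σ : ℂ) * (star (a i) ⬝ᵥ a j)) * (Y i * (C * Y j)).trace
        + (star (a i) ⬝ᵥ (B *ᵥ a j)) * (Y i * (D * Y j)).trace := by ring
      rw [this, h4, h7]
      split_ifs
      · ring
      · ring
    rw [Finset.sum_congr rfl fun j _ => e1 j, Finset.sum_ite_eq]
    simp only [Finset.mem_univ, if_true]
    rw [Matrix.add_mul, Matrix.smul_mul, Matrix.mul_add, Matrix.mul_smul, Matrix.trace_add,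
      Matrix.trace_smul, smul_eq_mul]
  have h9 := congrArg Complex.re h8
  rw [Complex.add_re, Complex.re_ofReal_mul, Complex.re_sum] at h9
  rw [h1, Complex.re_sum]
  simp only [Complex.re_ofReal_mul] at h9 ⊢
  rw [Finset.mul_sum]
  have h10 : ∀ x y z : ℝ, x - y - z = x - (y + z) := fun x y z => by ring
  rw [h10, h9, ← Finset.sum_sub_distrib]
  refine Finset.sum_congr rfl fun j _ => ?_
  ring

omit [DecidableEq n] in
theorem re_trace_nonneg {N : Matrix n n ℂ} (hN : N.PosSemidef) {m : Type*} [Fintype m]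
    (X : Matrix n m ℂ) : 0 ≤ (Xᴴ * (N * X)).trace.re := by
  have h := (hN.conjTranspose_mul_mul_same X).trace_nonneg
  rw [Matrix.mul_assoc] at h
  exact (Complex.le_def.1 h).1

/-- **B2**: the whole trial bound. `Ch = C + F`, `Dh = D - F`, `F ≥ 0`, `A - B ≥ 0`. -/
theorem trial_bound {A B S : Matrix ι ι ℂ} {C D F U : Matrix κ κ ℂ} {σ : ℝ} (hσ : 0 ≤ σ)
    (hM : (A ⊗ₖ C + B ⊗ₖ D).PosDef) (hAB : (A - B).PosSemidef) (hF : F.PosSemidef)
    (hU' : U * star U = 1) {f g : κ → ℝ} (hg : ∀ k, 0 ≤ g k)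
    (hC : C = U * diagonal (fun k => (g k : ℂ)) * star U)
    (hS : IsUnit S.det) {β : ι → ℝ}
    (hA : A + (σ : ℂ) • (1 : Matrix ι ι ℂ) = S * Sᴴ)
    (hB : B = S * diagonal (fun j => (β j : ℂ)) * Sᴴ) (v : ι → ℂ)
    {Y : ι → Matrix κ κ ℂ} (hY : ∀ j, (Y j).IsHermitian)
    (hiso : ∀ i j, ((C + F) * (Y i * Y j)).trace = ((C + F) * (Y j * Y i)).trace) :
    ∑ j, Complex.normSq ((S⁻¹ *ᵥ v) j) *
      (2 * ((U * diagonal (fun k => (f k : ℂ)) * star U) * Y j).trace.re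
        - (Y j * (((C + F) + (β j : ℂ) • (D - F)) * Y j)).trace.re) ≤
    ∑ k, f k ^ 2 * (star (fun p : ι × κ => v p.1 * U p.2 k) ⬝ᵥ
      (((A ⊗ₖ C + B ⊗ₖ D) + ((σ * g k : ℝ) : ℂ) • (1 : Matrix (ι × κ) (ι × κ) ℂ))⁻¹ *ᵥ
        (fun p : ι × κ => v p.1 * U p.2 k))).re := by
  set φ : Matrix κ κ ℂ := U * diagonal (fun k => (f k : ℂ)) * star U with hφd
  have hφ : φ.IsHermitian := by
    rw [hφd, Matrix.IsHermitian, Matrix.star_eq_conjTranspose, Matrix.conjTranspose_mul,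
      Matrix.conjTranspose_mul, Matrix.conjTranspose_conjTranspose, Matrix.diagonal_conjTranspose,
      Matrix.mul_assoc]
    congr 3
    ext k
    simp
  have h1 := var_cols hM hσ hU' (f := f) hg v (trialX S v Y)
  rw [← hC, ← hφd] at h1
  have h2 := trial_eval hS hA hB v hφ hY hiso (D := D - F)
  set X := trialX S v Y with hX
  have h3 : (Xᴴ * ((A ⊗ₖ C + B ⊗ₖ D) * X)).trace.re
      ≤ (Xᴴ * ((A ⊗ₖ (C + F) + B ⊗ₖ (D - F)) * X)).trace.re := by
    have e1 : A ⊗ₖ (C + F) + B ⊗ₖ (D - F) = (A ⊗ₖ C + B ⊗ₖ D) + (A - B) ⊗ₖ F := by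
      rw [Matrix.kronecker_add, sub_eq_add_neg D F, Matrix.kronecker_add]
      ext p q
      simp only [Matrix.add_apply, Matrix.kroneckerMap_apply, Matrix.sub_apply, Matrix.neg_apply]
      ring
    have e2 := re_trace_nonneg (hAB.kronecker hF) X
    rw [e1, Matrix.add_mul (A ⊗ₖ C + B ⊗ₖ D), Matrix.mul_add, Matrix.trace_add, Complex.add_re]
    linarith
  have h4 : (X * C * Xᴴ).trace.re ≤ (X * (C + F) * Xᴴ).trace.re := by
    have e2 := re_trace_nonneg hF Xᴴ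
    rw [Matrix.conjTranspose_conjTranspose, ← Matrix.mul_assoc] at e2
    rw [Matrix.mul_add, Matrix.add_mul, Matrix.trace_add, Complex.add_re]
    linarith
  have h5 := mul_le_mul_of_nonneg_left h4 hσ
  linarith

/-- simultaneous congruence -/
theorem exists_congr {A B : Matrix ι ι ℂ} (hA : A.PosDef) (hB : B.IsHermitian) :
    ∃ (S : Matrix ι ι ℂ) (β : ι → ℝ), IsUnit S.det ∧ A = S * Sᴴ ∧
      B = S * diagonal (fun j => (β j : ℂ)) * Sᴴ := by
  classical
  set U : Matrix ι ι ℂ := (hA.isHermitian.eigenvectorUnitary : Matrix ι ι ℂ) with hU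
  have hUU : U * Uᴴ = 1 := by
    have := (Matrix.mem_unitaryGroup_iff).1 hA.isHermitian.eigenvectorUnitary.2
    rwa [Matrix.star_eq_conjTranspose] at this
  set a : ι → ℝ := hA.isHermitian.eigenvalues with ha
  have ha0 : ∀ i, 0 < a i := fun i => hA.eigenvalues_pos i
  have hAs : A = U * diagonal (fun i => (a i : ℂ)) * Uᴴ := by
    have h := hA.isHermitian.spectral_theorem
    rw [Unitary.conjStarAlgAut_apply] at h
    exact h
  set S0 : Matrix ι ι ℂ := U * diagonal (fun i => ((Real.sqrt (a i) : ℝ) : ℂ)) with hS0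
  have hAS : A = S0 * S0ᴴ := by
    rw [hS0, Matrix.conjTranspose_mul, Matrix.diagonal_conjTranspose, Matrix.mul_assoc,
      ← Matrix.mul_assoc (diagonal _), Matrix.diagonal_mul_diagonal, hAs, Matrix.mul_assoc]
    congr 3
    ext i
    simp only [Pi.star_apply, Complex.star_def, Complex.conj_ofReal]
    rw [← Complex.ofReal_mul, Real.mul_self_sqrt (ha0 i).le]
  have hu : IsUnit (S0 * S0ᴴ).det := by
    rw [← hAS]
    exact (Matrix.isUnit_iff_isUnit_det A).1 hA.isUnit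
  have hu0 : IsUnit S0.det := by
    rw [Matrix.det_mul] at hu
    exact isUnit_of_mul_isUnit_left hu
  have hN : (S0⁻¹ * B * (S0⁻¹)ᴴ).IsHermitian := by
    rw [Matrix.IsHermitian, Matrix.conjTranspose_mul, Matrix.conjTranspose_mul,
      Matrix.conjTranspose_conjTranspose, hB.eq, Matrix.mul_assoc]
  set V : Matrix ι ι ℂ := (hN.eigenvectorUnitary : Matrix ι ι ℂ) with hV
  have hVV : V * Vᴴ = 1 := by
    have := (Matrix.mem_unitaryGroup_iff).1 hN.eigenvectorUnitary.2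
    rwa [Matrix.star_eq_conjTranspose] at this
  have hNs : S0⁻¹ * B * (S0⁻¹)ᴴ = V * diagonal (fun i => (hN.eigenvalues i : ℂ)) * Vᴴ := by
    have h := hN.spectral_theorem
    rw [Unitary.conjStarAlgAut_apply] at h
    exact h
  refine ⟨S0 * V, hN.eigenvalues, ?_, ?_, ?_⟩
  · rw [Matrix.det_mul]
    refine hu0.mul ?_
    have h1 : IsUnit (V * Vᴴ).det := by rw [hVV, Matrix.det_one]; exact isUnit_one
    rw [Matrix.det_mul] at h1
    exact isUnit_of_mul_isUnit_left h1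
  · rw [Matrix.conjTranspose_mul, Matrix.mul_assoc, ← Matrix.mul_assoc V, hVV, Matrix.one_mul]
    exact hAS
  · have h2 : S0 * V * diagonal (fun j => (hN.eigenvalues j : ℂ)) * (S0 * V)ᴴ
        = S0 * (V * diagonal (fun i => (hN.eigenvalues i : ℂ)) * Vᴴ) * S0ᴴ := by
      rw [Matrix.conjTranspose_mul]
      simp only [Matrix.mul_assoc]
    rw [h2, ← hNs, ← Matrix.mul_assoc, ← Matrix.mul_assoc, Matrix.mul_nonsing_inv _ hu0,
      Matrix.one_mul, Matrix.mul_assoc, ← Matrix.conjTranspose_mul, Matrix.mul_nonsing_inv _ hu0,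
      Matrix.conjTranspose_one, Matrix.mul_one]

/-- bounds of the labels -/
theorem labels_nonneg {S : Matrix ι ι ℂ} (hS : IsUnit S.det) {β : ι → ℝ}
    (h : (S * diagonal (fun j => (β j : ℂ)) * Sᴴ).PosSemidef) (j : ι) : 0 ≤ β j := by
  have h1 : (S⁻¹ * (S * diagonal (fun j => (β j : ℂ)) * Sᴴ) * (S⁻¹)ᴴ) =
      diagonal (fun j => (β j : ℂ)) := by
    have h3 : Sᴴ * (S⁻¹)ᴴ = 1 := by
      rw [← Matrix.conjTranspose_mul, Matrix.nonsing_inv_mul _ hS, Matrix.conjTranspose_one]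
    rw [Matrix.mul_assoc, Matrix.mul_assoc, Matrix.mul_assoc, h3, Matrix.mul_one,
      ← Matrix.mul_assoc, Matrix.nonsing_inv_mul _ hS, Matrix.one_mul]
  have h2 : (diagonal (fun j => (β j : ℂ)) : Matrix ι ι ℂ).PosSemidef := by
    rw [← h1]
    exact h.mul_mul_conjTranspose_same S⁻¹
  have h3 := (Matrix.posSemidef_diagonal_iff.1 h2) j
  exact_mod_cast h3

/-- `0 ≤ β_j < 1` for `0 ≤ B ≤ A - σ < A` -/
theorem labels_lt_one {A B S : Matrix ι ι ℂ} {σ : ℝ} (hσ : 0 < σ) (hAB : (A - B).PosSemidef)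
    (hS : IsUnit S.det) {β : ι → ℝ} (hA : A + (σ : ℂ) • (1 : Matrix ι ι ℂ) = S * Sᴴ)
    (hB : B = S * diagonal (fun j => (β j : ℂ)) * Sᴴ) (j : ι) : β j < 1 := by
  have h0 : (A - B + (σ : ℂ) • (1 : Matrix ι ι ℂ)).PosDef := by
    refine Matrix.PosDef.posSemidef_add hAB ?_
    exact Matrix.PosDef.smul Matrix.PosDef.one (by exact_mod_cast hσ)
  have h1 : S⁻¹ * (A - B + (σ : ℂ) • (1 : Matrix ι ι ℂ)) * (S⁻¹)ᴴ =
      diagonal (fun j => ((1 - β j : ℝ) : ℂ)) := by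
    have h3 : Sᴴ * (S⁻¹)ᴴ = 1 := by
      rw [← Matrix.conjTranspose_mul, Matrix.nonsing_inv_mul _ hS, Matrix.conjTranspose_one]
    have e : A - B + (σ : ℂ) • (1 : Matrix ι ι ℂ)
        = S * diagonal (fun j => ((1 - β j : ℝ) : ℂ)) * Sᴴ := by
      have e1 : A - B + (σ : ℂ) • (1 : Matrix ι ι ℂ) = A + (σ : ℂ) • (1 : Matrix ι ι ℂ) - B := by
        abel
      rw [e1, hA]
      conv_lhs => rw [hB]
      have e2 : (diagonal (fun j => ((1 - β j : ℝ) : ℂ)) : Matrix ι ι ℂ)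
          = 1 - diagonal (fun j => (β j : ℂ)) := by
        rw [← Matrix.diagonal_one, Matrix.diagonal_sub]
        congr 1
        ext j
        push_cast
        rfl
      rw [e2, Matrix.mul_sub, Matrix.sub_mul, Matrix.mul_one]
    rw [e, Matrix.mul_assoc, Matrix.mul_assoc, Matrix.mul_assoc, h3, Matrix.mul_one,
      ← Matrix.mul_assoc, Matrix.nonsing_inv_mul _ hS, Matrix.one_mul]
  have h2 : (diagonal (fun j => ((1 - β j : ℝ) : ℂ)) : Matrix ι ι ℂ).PosDef := by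
    rw [← h1]
    refine h0.mul_mul_conjTranspose_same ?_
    apply Matrix.vecMul_injective_of_isUnit
    rw [Matrix.isUnit_iff_isUnit_det]
    exact Matrix.isUnit_nonsing_inv_det _ hS
  have h3 := (Matrix.posDef_diagonal_iff.1 h2) j
  have h4 : (0 : ℝ) < 1 - β j := by exact_mod_cast h3
  linarith

end Pool.Agent.G34
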